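import Pool.Agent.N449.SX.Quad
import Pool.Agent.N449.SV.Final

/-!
# Sparse factors of `k ^ 2 + c k + ε`, `k = A b ^ m`, `ε = ± 1`
-/

set_option autoImplicit false
set_option maxHeartbeats 1000000

namespace Pool.Agent.N449.SX

open Finset Polynomial Pool.Agent.N449.SV

/-- sums of few powers of `b` as factors of `k ^ 2 + c k + ε`, `k = A b ^ m` -/
theorem quad (b m A : ℕ) (c ε : ℤ) (hb : 2 ≤ b) (hm : 0 < m) (hA : 0 < A) (hε : ε = 1 ∨ ε = -1)
    (hdisc : ¬ IsSquare (c ^ 2 - 4 * ε))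
    (hodd : ∀ r : ℕ, r.Prime → r ≠ 2 → ∀ a : ℤ, (dickson 1 ε r).eval a = c → ∀ t : ℚ,
      ((A * b ^ m : ℕ) : ℚ) ≠ t ^ r)
    (hC : ε = 1 → ¬ IsSquare (((A * b ^ m : ℕ) : ℚ) * (2 - c)) ∧ ¬ IsSquare (((A * b ^ m : ℕ) : ℚ) * (-2 - c)))
    (hsq : ε = 1 → ∀ a s : ℚ, (c : ℚ) + 2 = a ^ 2 → ((A * b ^ m : ℕ) : ℚ) = s ^ 2 → ¬ IsSquare (2 * s * (a + 2)))
    (d e : ℤ) (h : d * e = ((A * b ^ m : ℕ) : ℤ) ^ 2 + c * (A * b ^ m : ℕ) + ε) (hd : 1 < |d|)
    (he : 1 < |e|) (S T : Finset ℕ) (u v : ℕ → ℤ) (hS : d = ∑ i ∈ S, u i * (b : ℤ) ^ i)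
    (hT : e = ∑ j ∈ T, v j * (b : ℤ) ^ j) :
    (b : ℤ) ^ m ≤ (b + (A : ℤ) ^ 2 + |c| * A + 1 +
      (∑ i ∈ S, |u i|) * (∑ j ∈ T, |v j|)) ^ (4 * T.card * (8 * T.card) ^ (S.card - 1)) := by
  obtain ⟨F, hFdef⟩ : ∃ F : ℤ[X], F = C ((A : ℤ) ^ 2) * X ^ 2 + C (c * A) * X + C ε := ⟨_, rfl⟩
  have hk0 : (0 : ℚ) < ((A * b ^ m : ℕ) : ℚ) := by
    have : 0 < A * b ^ m := by positivity
    exact_mod_cast this
  have hlead : ((A : ℤ) ^ 2) ≠ 0 := by positivity
  have hdeg : F.natDegree = 2 := by rw [hFdef]; exact natDegree_quadratic hlead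
  have hc0 : F.coeff 0 = ε := by
    rw [hFdef, coeff_add, coeff_add, coeff_C_mul_X_pow, coeff_C_mul_X, coeff_C]
    norm_num
  have hc1 : F.coeff 1 = c * A := by
    rw [hFdef, coeff_add, coeff_add, coeff_C_mul_X_pow, coeff_C_mul_X, coeff_C]
    norm_num
  have hc2 : F.coeff 2 = (A : ℤ) ^ 2 := by
    rw [hFdef, coeff_add, coeff_add, coeff_C_mul_X_pow, coeff_C_mul_X, coeff_C]
    norm_num
  have hεu : IsUnit ε := by
    rcases hε with rfl | rfl
    · exact isUnit_one
    · exact isUnit_one.neg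
  have hprim : F.IsPrimitive := by
    intro r hr
    have h0 := (C_dvd_iff_dvd_coeff r F).1 hr 0
    rw [hc0] at h0
    exact isUnit_of_dvd_unit h0 hεu
  have hmain := final_irr b m hb hm F hprim (by
      rw [hc0]
      rcases hε with rfl | rfl
      · exact isCoprime_one_right
      · exact isCoprime_one_right.neg_right) (by
      intro q hq
      have hir := irr_quad c ε hε hdisc _ hk0 hodd hC hsq q hq
      have hu : IsUnit (C (((A * b ^ m : ℕ) : ℚ) ^ 2)) := isUnit_C.2 (IsUnit.mk0 _ (by positivity))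
      have h5 := (irreducible_isUnit_mul hu).2 hir
      convert h5 using 1
      rw [hFdef]
      simp only [Polynomial.map_add, Polynomial.map_mul, Polynomial.map_pow, map_X, map_C, add_comp,
        mul_comp, C_comp, X_comp, pow_comp]
      rw [mul_add, mul_add, ← mul_assoc, ← mul_assoc, ← C_mul, ← C_mul]
      try rw [← C_mul]
      have e1 : (((A * b ^ m : ℕ) : ℚ)) ^ 2 * ((c : ℚ) / ((A * b ^ m : ℕ) : ℚ)) = c * A * (b : ℚ) ^ m := by
        field_simp
        push_cast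
        ring
      have e2 : (((A * b ^ m : ℕ) : ℚ)) ^ 2 * ((ε : ℚ) / ((A * b ^ m : ℕ) : ℚ) ^ 2) = ε := by
        field_simp
      rw [e1, e2]
      simp
      ring) d e (by
      rw [h, hFdef]
      simp
      ring) hd he S T u v hS hT
  have hs : ∑ i ∈ range (F.natDegree + 1), |F.coeff i| = (A : ℤ) ^ 2 + |c| * A + 1 := by
    rw [hdeg, Finset.sum_range_succ, Finset.sum_range_succ, Finset.sum_range_succ, Finset.sum_range_zero,
      hc0, hc1, hc2, abs_mul, abs_of_nonneg (by positivity : (0 : ℤ) ≤ A),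
      abs_of_nonneg (by positivity : (0 : ℤ) ≤ (A : ℤ) ^ 2)]
    have : |ε| = 1 := by rcases hε with rfl | rfl <;> simp
    rw [this]
    ring
  rw [hs] at hmain
  convert hmain using 2
  ring

/-! ### values of the Dickson polynomials -/

theorem dneg (e a : ℤ) (n : ℕ) : (dickson 1 e n).eval (-a) = (-1) ^ n * (dickson 1 e n).eval a := by
  induction n using Nat.twoStepInduction with
  | zero => simp
  | one => simp
  | more n h0 h1 =>
    rw [dickson_add_two, eval_sub, eval_mul, eval_mul, eval_X, eval_C, h0, h1, eval_sub, eval_mul, eval_mul,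
      eval_X, eval_C]
    ring

theorem dpos_neg (a : ℤ) (ha : 1 ≤ a) (n : ℕ) : 1 ≤ (dickson 1 (-1 : ℤ) n).eval a := by
  induction n using Nat.twoStepInduction with
  | zero => simp
  | one => simpa using ha
  | more n h0 h1 =>
    rw [dickson_add_two, eval_sub, eval_mul, eval_mul, eval_X, eval_C]
    nlinarith

theorem dbig_neg (a : ℤ) (ha : 1 ≤ a) (n : ℕ) : 4 ≤ (dickson 1 (-1 : ℤ) (n + 3)).eval a := by
  induction n using Nat.twoStepInduction with
  | zero =>
    have e : (dickson 1 (-1 : ℤ) 3).eval a = a ^ 3 + 3 * a := by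
      rw [show (3 : ℕ) = 1 + 2 by norm_num, dickson_add_two, show (1 + 1 : ℕ) = 0 + 2 by norm_num,
        dickson_add_two]
      simp
      ring
    rw [zero_add, e]
    nlinarith [pow_le_pow_left₀ (by norm_num) ha 3]
  | one =>
    have e : (dickson 1 (-1 : ℤ) 4).eval a = a ^ 4 + 4 * a ^ 2 + 2 := by
      rw [show (4 : ℕ) = 2 + 2 by norm_num, dickson_add_two, show (2 + 1 : ℕ) = 1 + 2 by norm_num,
        dickson_add_two, show (1 + 1 : ℕ) = 0 + 2 by norm_num, dickson_add_two]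
      simp
      ring
    show 4 ≤ (dickson 1 (-1 : ℤ) 4).eval a
    rw [e]
    nlinarith [pow_le_pow_left₀ (by norm_num) ha 4, pow_le_pow_left₀ (by norm_num) ha 2]
  | more n h0 h1 =>
    rw [show n + 2 + 3 = n + 3 + 2 by ring, dickson_add_two, eval_sub, eval_mul, eval_mul, eval_X, eval_C]
    rw [show n + 3 + 1 = n + 1 + 3 by ring]
    nlinarith

/-- `± 1` is no value of a Dickson polynomial with parameter `- 1` and odd degree `≥ 3` -/
theorem dne_neg (c : ℤ) (hc : c = 1 ∨ c = -1) (r : ℕ) (hr : r.Prime) (hr2 : r ≠ 2) (a : ℤ) :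
    (dickson 1 (-1 : ℤ) r).eval a ≠ c := by
  intro h
  have hodd := hr.odd_of_ne_two hr2
  have h2 := hr.two_le
  obtain ⟨n, hn⟩ : ∃ n, r = n + 3 := ⟨r - 3, by omega⟩
  rcases lt_trichotomy a 0 with ha | ha | ha
  · have h3 := dbig_neg (-a) (by omega) n
    rw [← hn, dneg, h, hodd.neg_one_pow] at h3
    rcases hc with rfl | rfl <;> norm_num at h3
  · rw [ha] at h
    have h3 := dneg (-1) 0 r
    rw [neg_zero, h, hodd.neg_one_pow] at h3
    rcases hc with rfl | rfl <;> norm_num at h3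
  · have h3 := dbig_neg a (by omega) n
    rw [← hn, h] at h3
    rcases hc with rfl | rfl <;> norm_num at h3

theorem dsmall (a : ℤ) (ha : |a| ≤ 2) (n : ℕ) : |(dickson 1 (1 : ℤ) n).eval a| ≤ 2 := by
  have inv : ∀ n : ℕ, (dickson 1 (1 : ℤ) n).eval a ^ 2 + (dickson 1 (1 : ℤ) (n + 1)).eval a ^ 2
      - a * (dickson 1 (1 : ℤ) n).eval a * (dickson 1 (1 : ℤ) (n + 1)).eval a = 4 - a ^ 2 := by
    intro n
    induction n with
    | zero => simp; ring
    | succ n ih =>
      rw [dickson_add_two, eval_sub, eval_mul, eval_mul, eval_X, eval_C]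
      linear_combination ih
  rw [abs_le] at ha
  obtain ⟨h1, h2⟩ := ha
  have h3 := inv n
  by_cases h4 : a ^ 2 = 4
  · -- `a = ± 2`
    have h5 : a = 2 ∨ a = -2 := by
      have : (a - 2) * (a + 2) = 0 := by linear_combination h4
      rcases mul_eq_zero.1 this with h | h
      · left; linarith
      · right; linarith
    have h6 : ∀ n : ℕ, (dickson 1 (1 : ℤ) n).eval 2 = 2 := by
      intro n
      induction n using Nat.twoStepInduction with
      | zero => simp
      | one => simp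
      | more n h0 h1 =>
        rw [dickson_add_two, eval_sub, eval_mul, eval_mul, eval_X, eval_C, h0, h1]
        norm_num
    rcases h5 with rfl | rfl
    · rw [h6]; norm_num
    · rw [dneg, h6]
      rcases neg_one_pow_eq_or ℤ n with h | h <;> rw [h] <;> norm_num
  · set x := (dickson 1 (1 : ℤ) n).eval a
    set y := (dickson 1 (1 : ℤ) (n + 1)).eval a
    have h5 : 0 < 4 - a ^ 2 := by
      rcases lt_or_gt_of_ne h4 with h | h
      · linarith
      · nlinarith
    have h6 : (4 - a ^ 2) * x ^ 2 ≤ (4 - a ^ 2) * 4 := by nlinarith [sq_nonneg (2 * y - a * x)]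
    have h7 : x ^ 2 ≤ 2 ^ 2 := by
      have := le_of_mul_le_mul_left h6 h5
      linarith
    exact abs_le_of_sq_le_sq h7 (by norm_num)

theorem dbig (a : ℤ) (ha : 3 ≤ a) (n : ℕ) : 18 ≤ (dickson 1 (1 : ℤ) (n + 3)).eval a ∧
    (dickson 1 (1 : ℤ) (n + 3)).eval a ≤ (dickson 1 (1 : ℤ) (n + 4)).eval a := by
  induction n with
  | zero =>
    have e3 : (dickson 1 (1 : ℤ) 3).eval a = a * (a ^ 2 - 3) := by
      rw [show (3 : ℕ) = 1 + 2 by norm_num, dickson_add_two, show (1 + 1 : ℕ) = 0 + 2 by norm_num,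
        dickson_add_two]
      simp
      ring
    have e4 : (dickson 1 (1 : ℤ) 4).eval a = a ^ 4 - 4 * a ^ 2 + 2 := by
      rw [show (4 : ℕ) = 2 + 2 by norm_num, dickson_add_two, show (2 + 1 : ℕ) = 1 + 2 by norm_num,
        dickson_add_two, show (1 + 1 : ℕ) = 0 + 2 by norm_num, dickson_add_two]
      simp
      ring
    simp only [Nat.zero_add]
    rw [e3, e4]
    have h2 : 9 ≤ a ^ 2 := by nlinarith
    constructor
    · nlinarith
    · nlinarith [mul_nonneg (by linarith : 0 ≤ a - 3) (by linarith : 0 ≤ a), sq_nonneg (a ^ 2), sq_nonneg a]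
  | succ n ih =>
    obtain ⟨h1, h2⟩ := ih
    refine ⟨h1.trans h2, ?_⟩
    have h3 := dickson_add_two 1 (1 : ℤ) (n + 3)
    have h4 := congrArg (eval a) h3
    rw [eval_sub, eval_mul, eval_mul, eval_X, eval_C] at h4
    have h5 : (dickson 1 (1 : ℤ) (n + 1 + 4)).eval a = a * (dickson 1 (1 : ℤ) (n + 4)).eval a
        - 1 * (dickson 1 (1 : ℤ) (n + 3)).eval a := h4
    show (dickson 1 (1 : ℤ) (n + 4)).eval a ≤ _
    rw [h5]
    nlinarith

theorem dne (c : ℤ) (hc : 3 ≤ |c|) (hc' : |c| ≤ 17) (r : ℕ) (hr : r.Prime) (hr2 : r ≠ 2) (a : ℤ) :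
    (dickson 1 (1 : ℤ) r).eval a ≠ c := by
  intro h
  rcases le_or_gt |a| 2 with ha | ha
  · have := dsmall a ha r
    rw [h] at this
    linarith
  · have hodd := hr.odd_of_ne_two hr2
    have h2 := hr.two_le
    obtain ⟨n, hn⟩ : ∃ n, r = n + 3 := ⟨r - 3, by omega⟩
    have key : ∀ a : ℤ, 3 ≤ a → 18 ≤ (dickson 1 (1 : ℤ) r).eval a := by
      intro a ha
      rw [hn]
      exact (dbig a ha n).1
    have h18 : 18 ≤ |c| := by
      rcases lt_or_ge a 0 with h0 | h0
      · rw [abs_of_neg h0] at ha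
        have h3 := key (-a) (by omega)
        rw [dneg, h, hodd.neg_one_pow] at h3
        exact h3.trans (by rw [neg_one_mul]; exact neg_le_abs c)
      · rw [abs_of_nonneg h0] at ha
        have h3 := key a (by omega)
        rw [h] at h3
        exact h3.trans (le_abs_self c)
    omega

end Pool.Agent.N449.SX
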