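import Pool.Agent.N449.SX.Final

/-!
# The palindromes `10 ^ (2 n) + c 10 ^ n + 1`
-/

set_option autoImplicit false
set_option maxHeartbeats 1000000

namespace Pool.Agent.N449.SX

open Finset Polynomial

theorem digits_pal (n c : ℕ) (hn : 0 < n) (hc : c < 10) :
    (Nat.digits 10 (10 ^ (2 * n) + c * 10 ^ n + 1)).Palindrome := by
  obtain ⟨k, rfl⟩ : ∃ k, n = k + 1 := ⟨n - 1, by omega⟩
  have h : Nat.digits 10 (10 ^ (2 * (k + 1)) + c * 10 ^ (k + 1) + 1)
      = 1 :: (List.replicate k 0 ++ c :: (List.replicate k 0 ++ [1])) := by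
    have h1 : 10 ^ (2 * (k + 1)) + c * 10 ^ (k + 1) + 1
        = Nat.ofDigits 10 (1 :: (List.replicate k 0 ++ c :: (List.replicate k 0 ++ [1]))) := by
      rw [Nat.ofDigits_cons, Nat.ofDigits_append, Nat.ofDigits_cons, Nat.ofDigits_append,
        Nat.ofDigits_replicate_zero, List.length_replicate, Nat.ofDigits_singleton]
      ring
    rw [h1]
    apply Nat.digits_ofDigits 10 (by norm_num)
    · intro l hl
      simp only [List.mem_cons, List.mem_append, List.mem_replicate] at hl
      rcases hl with h | ⟨_, h⟩ | h | ⟨_, h⟩ | h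
      · omega
      · omega
      · omega
      · omega
      · simp at h
        omega
    · intro h
      simp
  rw [h]
  apply List.Palindrome.of_reverse_eq
  simp

theorem sq10 (j : ℕ) (h : IsSquare (((10 ^ j : ℕ)) : ℚ)) : Even j := by
  rw [Rat.isSquare_natCast_iff] at h
  obtain ⟨z, hz⟩ := h
  have hz0 : z ≠ 0 := by
    rintro rfl
    simp at hz
  have h1 := congrArg (fun x => x.factorization 2) hz
  have h2 : (10 : ℕ).factorization 2 = 1 := by
    rw [show (10 : ℕ) = 2 * 5 by norm_num, Nat.factorization_mul (by norm_num) (by norm_num)]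
    simp [Nat.Prime.factorization Nat.prime_two, Nat.Prime.factorization Nat.prime_five]
  simp only [Nat.factorization_pow, Nat.factorization_mul hz0 hz0, Finsupp.add_apply, Finsupp.smul_apply,
    smul_eq_mul, h2] at h1
  exact ⟨z.factorization 2, by omega⟩

theorem nsq10 (j : ℕ) (h : IsSquare (((2 * 10 ^ j : ℕ)) : ℚ)) : False := by
  rw [Rat.isSquare_natCast_iff] at h
  obtain ⟨z, hz⟩ := h
  have hz0 : z ≠ 0 := by
    rintro rfl
    simp at hz
  have h1 := congrArg (fun x => x.factorization 2) hz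
  have h3 := congrArg (fun x => x.factorization 5) hz
  have h2 : (10 : ℕ).factorization 2 = 1 := by
    rw [show (10 : ℕ) = 2 * 5 by norm_num, Nat.factorization_mul (by norm_num) (by norm_num)]
    simp [Nat.Prime.factorization Nat.prime_two, Nat.Prime.factorization Nat.prime_five]
  have h5 : (10 : ℕ).factorization 5 = 1 := by
    rw [show (10 : ℕ) = 2 * 5 by norm_num, Nat.factorization_mul (by norm_num) (by norm_num)]
    simp [Nat.Prime.factorization Nat.prime_two, Nat.Prime.factorization Nat.prime_five]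
  have h6 : (2 : ℕ).factorization 2 = 1 := Nat.prime_two.factorization_self
  have h7 : (2 : ℕ).factorization 5 = 0 := Nat.factorization_eq_zero_of_not_dvd (by norm_num)
  have h10 : (10 : ℕ) ^ j ≠ 0 := by positivity
  simp only [Nat.factorization_mul (by norm_num : (2 : ℕ) ≠ 0) h10, Nat.factorization_pow,
    Nat.factorization_mul hz0 hz0, Finsupp.add_apply, Finsupp.smul_apply, smul_eq_mul, h2, h6] at h1
  simp only [Nat.factorization_mul (by norm_num : (2 : ℕ) ≠ 0) h10, Nat.factorization_pow,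
    Nat.factorization_mul hz0 hz0, Finsupp.add_apply, Finsupp.smul_apply, smul_eq_mul, h5, h7] at h3
  omega

theorem disc_ne (c : ℤ) (hc : 3 ≤ |c|) : ¬ IsSquare (c ^ 2 - 4 * 1) := by
  rintro ⟨z, hz⟩
  have h1 : c ^ 2 = |c| ^ 2 := (sq_abs c).symm
  have h2 : z * z = |z| ^ 2 := by rw [← pow_two, sq_abs]
  have h3 : |z| < |c| := by
    apply lt_of_pow_lt_pow_left₀ 2 (abs_nonneg c)
    linarith
  have h4 : |c| - 1 < |z| := by
    apply lt_of_pow_lt_pow_left₀ 2 (abs_nonneg z)
    nlinarith
  omega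

theorem root10 (n r : ℕ) (hr : 0 < r) (t : ℚ) (ht : ((10 ^ n : ℕ) : ℚ) = t ^ r) : r ∣ n := by
  have h1 : IsIntegral ℤ t := by
    apply IsIntegral.of_pow hr
    rw [← ht]
    exact isIntegral_algebraMap (R := ℤ) (A := ℚ) (x := ((10 ^ n : ℕ) : ℤ)) |>.map (AlgHom.id ℤ ℚ) |> fun h => by simpa using h
  obtain ⟨z, hz⟩ := IsIntegrallyClosed.isIntegral_iff.1 h1
  have h2 : ((10 ^ n : ℕ) : ℤ) = z ^ r := by
    have : (((10 ^ n : ℕ) : ℤ) : ℚ) = ((z ^ r : ℤ) : ℚ) := by
      rw [Int.cast_natCast, ht, ← hz]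
      push_cast
      rfl
    exact_mod_cast this
  have h3 : 10 ^ n = z.natAbs ^ r := by
    have := congrArg Int.natAbs h2
    rwa [Int.natAbs_pow, Int.natAbs_natCast] at this
  have h4 := congrArg (fun x => x.factorization 2) h3
  have h5 : (10 : ℕ).factorization 2 = 1 := by
    rw [show (10 : ℕ) = 2 * 5 by norm_num, Nat.factorization_mul (by norm_num) (by norm_num)]
    simp [Nat.Prime.factorization Nat.prime_two, Nat.Prime.factorization Nat.prime_five]
  simp only [Nat.factorization_pow, Finsupp.smul_apply, smul_eq_mul, h5] at h4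
  exact ⟨z.natAbs.factorization 2, by linarith⟩

theorem pal_one (n j : ℕ) (hn : n = 3 ^ j)
    (d e : ℤ) (h : d * e = 10 ^ (2 * n) + 10 ^ n + 1) (hd : 1 < |d|) (he : 1 < |e|)
    (S T : Finset ℕ) (u v : ℕ → ℤ) (hS : d = ∑ i ∈ S, u i * 10 ^ i) (hT : e = ∑ j ∈ T, v j * 10 ^ j) :
    (10 : ℤ) ^ n ≤ (13 + (∑ i ∈ S, |u i|) * (∑ j ∈ T, |v j|)) ^
      (4 * T.card * (8 * T.card) ^ (S.card - 1)) := by
  have hn0 : 0 < n := by rw [hn]; positivity
  have hk : (0 : ℚ) < ((1 * 10 ^ n : ℕ) : ℚ) := by positivity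
  have hm := quad 10 n 1 1 1 (by norm_num) hn0 (by norm_num) (Or.inl rfl) (by
      rintro ⟨z, hz⟩
      nlinarith [mul_self_nonneg z]) (by
      intro r hr hr2 a ha t ht
      rw [one_mul] at ht
      have h1 := root10 n r hr.pos t ht
      rw [hn] at h1
      have h2 := (Nat.prime_dvd_prime_iff_eq hr Nat.prime_three).1 (hr.dvd_of_dvd_pow h1)
      rw [h2, show (3 : ℕ) = 1 + 2 by norm_num, dickson_add_two, show (1 + 1 : ℕ) = 0 + 2 by norm_num,
        dickson_add_two] at ha
      simp at ha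
      have h3 : a * (a ^ 2 - 3) = 1 := by linear_combination ha
      rcases Int.isUnit_iff.1 (IsUnit.of_mul_eq_one _ h3) with h | h
      · rw [h] at h3
        norm_num at h3
      · rw [h] at h3
        norm_num at h3) (by
      intro _
      constructor
      · intro h1
        have h2 : Even n := by
          apply sq10
          convert h1 using 1
          push_cast
          ring
        rw [hn] at h2
        exact (Nat.not_even_iff_odd.2 (Odd.pow (by decide))) h2
      · rintro ⟨z, hz⟩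
        push_cast at hz
        have hp : (0 : ℚ) < 10 ^ n := by positivity
        nlinarith [mul_self_nonneg z]) (by
      intro _ a s ha
      exfalso
      have h1 : IsSquare (((3 : ℕ)) : ℚ) := ⟨a, by push_cast at ha ⊢; linear_combination ha⟩
      rw [Rat.isSquare_natCast_iff] at h1
      obtain ⟨z, hz⟩ := h1
      have : z ≤ 1 := by
        by_contra hcon
        push Not at hcon
        nlinarith
      interval_cases z <;> omega) d e (by
      rw [h]
      push_cast
      ring) hd he S T u v (by rw [hS]; norm_num) (by rw [hT]; norm_num)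
  have e1 : (((10 : ℕ) : ℤ) + ((1 : ℕ) : ℤ) ^ 2 + |(1 : ℤ)| * ((1 : ℕ) : ℤ) + 1) = 13 := by
    norm_num
  rw [e1] at hm
  exact_mod_cast hm

theorem pal (n : ℕ) (hn : 0 < n) (c : ℕ) (hc : 3 ≤ c) (hc' : c ≤ 9) (h7 : c = 7 → n % 4 ≠ 2)
    (d e : ℤ) (h : d * e = 10 ^ (2 * n) + c * 10 ^ n + 1) (hd : 1 < |d|) (he : 1 < |e|)
    (S T : Finset ℕ) (u v : ℕ → ℤ) (hS : d = ∑ i ∈ S, u i * 10 ^ i) (hT : e = ∑ j ∈ T, v j * 10 ^ j) :
    (10 : ℤ) ^ n ≤ (c + 12 + (∑ i ∈ S, |u i|) * (∑ j ∈ T, |v j|)) ^
      (4 * T.card * (8 * T.card) ^ (S.card - 1)) := by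
  have hk : (0 : ℚ) < ((1 * 10 ^ n : ℕ) : ℚ) := by positivity
  have hcQ : (3 : ℚ) ≤ ((c : ℤ) : ℚ) := by exact_mod_cast hc
  have hm := quad 10 n 1 c 1 (by norm_num) hn (by norm_num) (Or.inl rfl) (by
      exact disc_ne c (by rw [abs_of_nonneg (by positivity)]; exact_mod_cast hc)) (by
      intro r hr hr2 a ha
      exact absurd ha (dne c (by rw [abs_of_nonneg (by positivity)]; exact_mod_cast hc)
        (by rw [abs_of_nonneg (by positivity)]; exact_mod_cast (by omega : c ≤ 17)) r hr hr2 a)) (by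
      intro _
      constructor
      · rintro ⟨z, hz⟩
        nlinarith [mul_self_nonneg z]
      · rintro ⟨z, hz⟩
        nlinarith [mul_self_nonneg z]) (by
      intro _ a s ha hs
      -- `c = 7`
      have h1 : IsSquare (((c + 2 : ℕ)) : ℚ) := ⟨a, by push_cast at ha ⊢; rw [ha]; ring⟩
      rw [Rat.isSquare_natCast_iff] at h1
      have hc7 : c = 7 := by
        obtain ⟨z, hz⟩ := h1
        have : z ≤ 3 := by
          by_contra hcon
          push Not at hcon
          nlinarith
        interval_cases z <;> omega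
      have h2 : IsSquare (((10 ^ n : ℕ)) : ℚ) := ⟨s, by rw [← pow_two, ← hs, one_mul]⟩
      obtain ⟨j, hj⟩ := sq10 n h2
      have h3 : s ^ 2 = ((10 : ℚ) ^ j) ^ 2 := by
        rw [← hs, hj]
        push_cast
        ring
      have h4 : a ^ 2 = 3 ^ 2 := by
        rw [← ha, hc7]
        norm_num
      have hj0 : (0 : ℚ) < 10 ^ j := by positivity
      rcases sq_eq_sq_iff_eq_or_eq_neg.1 h3 with h5 | h5 <;> rcases sq_eq_sq_iff_eq_or_eq_neg.1 h4 with h6 | h6
      · intro h8
        rw [h5, h6] at h8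
        have h9 : IsSquare (((10 ^ (j + 1) : ℕ)) : ℚ) := by
          convert h8 using 1
          push_cast
          ring
        obtain ⟨l, hl⟩ := sq10 _ h9
        apply h7 hc7
        omega
      · rintro ⟨z, hz⟩
        rw [h5, h6] at hz
        nlinarith [mul_self_nonneg z]
      · rintro ⟨z, hz⟩
        rw [h5, h6] at hz
        nlinarith [mul_self_nonneg z]
      · intro h8
        rw [h5, h6] at h8
        apply nsq10 j
        convert h8 using 1
        push_cast
        ring) d e (by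
      rw [h]
      push_cast
      ring) hd he S T u v (by rw [hS]; norm_num) (by rw [hT]; norm_num)
  rw [abs_of_nonneg (by positivity : (0 : ℤ) ≤ (c : ℤ))] at hm
  have e1 : (((10 : ℕ) : ℤ) + ((1 : ℕ) : ℤ) ^ 2 + (c : ℤ) * ((1 : ℕ) : ℤ) + 1) = (c : ℤ) + 12 := by
    push_cast
    ring
  rw [e1] at hm
  exact_mod_cast hm

end Pool.Agent.N449.SX
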