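import Pool.Agent.N449.SW.Capelli

/-!
# Irreducibility of `k ^ 2 X ^ (2 q) + c k X ^ q + ε`, `ε = ± 1`
-/

set_option autoImplicit false
set_option maxHeartbeats 1000000

namespace Pool.Agent.N449.SX

open Polynomial IntermediateField Pool.Agent.N449.SW

theorem dick {F : Type*} [Field F] (e v v' : F) (hv : v * v' = e) (n : ℕ) :
    (dickson 1 e n).eval (v + v') = v ^ n + v' ^ n := by
  induction n using Nat.twoStepInduction with
  | zero => simp; norm_num
  | one => simp
  | more n h0 h1 =>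
    rw [dickson_add_two, eval_sub, eval_mul, eval_mul, eval_X, eval_C, h0, h1]
    linear_combination (v ^ n + v' ^ n) * hv

/-- the norm form -/
def nm (e c k α β : ℚ) : ℚ := α ^ 2 - c / k * α * β + e / k ^ 2 * β ^ 2

section

variable {L : Type*} [Field L] (A : ℚ →+* L) (g : L) (e c k : ℚ)

theorem pow_rep (hg : g ^ 2 = -(A (c / k) * g + A (e / k ^ 2))) (w : L) (α β : ℚ)
    (hw : w = A α + A β * g) (n : ℕ) :
    ∃ γ δ : ℚ, w ^ n = A γ + A δ * g ∧ nm e c k γ δ = nm e c k α β ^ n := by
  induction n with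
  | zero => exact ⟨1, 0, by simp, by simp [nm]⟩
  | succ n ih =>
    obtain ⟨γ, δ, h1, h2⟩ := ih
    refine ⟨α * γ - e / k ^ 2 * β * δ, α * δ + β * γ - c / k * β * δ, ?_, ?_⟩
    · rw [pow_succ, h1, hw]
      simp only [map_add, map_sub, map_mul, map_div₀, map_pow, map_one] at hg ⊢
      linear_combination (A δ * A β) * hg
    · rw [pow_succ (nm e c k α β), ← h2]
      unfold nm
      ring

theorem sq_rep (hg : g ^ 2 = -(A (c / k) * g + A (e / k ^ 2))) (w : L) (α β : ℚ)
    (hw : w = A α + A β * g) :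
    w ^ 2 = A (α ^ 2 - e / k ^ 2 * β ^ 2) + A (2 * α * β - c / k * β ^ 2) * g := by
  rw [hw]
  simp only [map_sub, map_mul, map_div₀, map_pow, map_one, map_ofNat] at hg ⊢
  linear_combination (A β) ^ 2 * hg

variable (hk : 0 < k) (he : e = 1 ∨ e = -1) (hrep : ∀ w, ∃ α β : ℚ, w = A α + A β * g)
  (hind : ∀ α β : ℚ, A α + A β * g = 0 → α = 0 ∧ β = 0) (hg : g ^ 2 = -(A (c / k) * g + A (e / k ^ 2)))

include hk he hrep hind hg

theorem core_two (hC : e = 1 → ¬ IsSquare (k * (2 - c)) ∧ ¬ IsSquare (k * (-2 - c))) (w : L) : w ^ 2 ≠ g := by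
  intro hw
  obtain ⟨α, β, hαβ⟩ := hrep w
  rw [sq_rep A g e c k hg w α β hαβ] at hw
  obtain ⟨h2, h3⟩ := hind (α ^ 2 - e / k ^ 2 * β ^ 2) (2 * α * β - c / k * β ^ 2 - 1) (by
    rw [map_sub A (2 * α * β - c / k * β ^ 2) 1, map_one]
    linear_combination hw)
  rcases he with he | he
  · rw [he] at h2
    have h4 : (α - β / k) * (α + β / k) = 0 := by linear_combination h2
    rcases mul_eq_zero.1 h4 with h5 | h5
    · have h6 : α = β / k := by linarith
      rw [h6] at h3
      have h7 : β ^ 2 * (2 - c) = k := by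
        field_simp at h3
        linear_combination h3
      exact (hC he).1 ⟨β * (2 - c), by linear_combination (-(2 - c)) * h7⟩
    · have h6 : α = -(β / k) := by linarith
      rw [h6] at h3
      have h7 : β ^ 2 * (-2 - c) = k := by
        field_simp at h3
        linear_combination h3
      exact (hC he).2 ⟨β * (-2 - c), by linear_combination (-(-2 - c)) * h7⟩
  · rw [he] at h2
    have h4 : α ^ 2 + (β / k) ^ 2 = 0 := by linear_combination h2
    have h5 : β / k = 0 := by nlinarith [sq_nonneg α, sq_nonneg (β / k)]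
    have h6 : β = 0 := by
      rcases div_eq_zero_iff.1 h5 with h | h
      · exact h
      · exact absurd h hk.ne'
    rw [h6] at h3
    norm_num at h3

theorem core_four (hsq : e = 1 → ∀ a s : ℚ, c + 2 = a ^ 2 → k = s ^ 2 → ¬ IsSquare (2 * s * (a + 2))) (w : L) :
    -(4 * w ^ 4) ≠ g := by
  intro hw
  obtain ⟨γ, δ, hγδ⟩ := hrep w
  have h0 := sq_rep A g e c k hg w γ δ hγδ
  obtain ⟨α, hα⟩ : ∃ α : ℚ, α = 2 * (γ ^ 2 - e / k ^ 2 * δ ^ 2) := ⟨_, rfl⟩
  obtain ⟨β, hβ⟩ : ∃ β : ℚ, β = 2 * (2 * γ * δ - c / k * δ ^ 2) := ⟨_, rfl⟩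
  have h1 : 2 * w ^ 2 = A α + A β * g := by
    rw [h0, hα, hβ, map_mul A 2, map_mul A 2, map_ofNat]
    ring
  have h2 := sq_rep A g e c k hg _ α β h1
  obtain ⟨h3, h4⟩ := hind (α ^ 2 - e / k ^ 2 * β ^ 2) (2 * α * β - c / k * β ^ 2 + 1) (by
    rw [map_add A (2 * α * β - c / k * β ^ 2) 1, map_one]
    linear_combination -h2 - hw)
  have hnm : nm e c k α β = 4 * nm e c k γ δ ^ 2 := by
    rw [hα, hβ]
    unfold nm
    ring
  rcases he with he | he
  · rw [he] at h3
    have h5 : (α - β / k) * (α + β / k) = 0 := by linear_combination h3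
    rcases mul_eq_zero.1 h5 with h5 | h5
    · have h6 : α = β / k := by linarith
      rw [h6] at h4
      have h7 : β ^ 2 * (c - 2) = k := by
        field_simp at h4
        linear_combination -h4
      have h8 : nm e c k α β = -1 / k := by
        rw [h6, he]
        unfold nm
        field_simp
        linear_combination -h7
      have h9 : (-1 : ℚ) / k < 0 := by
        apply div_neg_of_neg_of_pos <;> linarith
      rw [hnm] at h8
      nlinarith [sq_nonneg (nm e c k γ δ)]
    · have h6 : α = -(β / k) := by linarith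
      rw [h6] at h4
      have h7 : β ^ 2 * (c + 2) = k := by
        field_simp at h4
        linear_combination -h4
      have h8 : nm e c k α β = 1 / k := by
        rw [h6, he]
        unfold nm
        field_simp
        linear_combination h7
      rw [hnm] at h8
      have hβ0 : β ≠ 0 := by
        intro h
        rw [h] at h7
        linarith
      have hn0 : nm e c k γ δ ≠ 0 := by
        intro h
        rw [h] at h8
        have : (0 : ℚ) < 1 / k := by positivity
        linarith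
      have h9 : k * (4 * nm e c k γ δ ^ 2) = 1 := by
        rw [h8]
        field_simp
      have htr : (2 * γ - c / k * δ) ^ 2 = α - c / k * β / 2 + 2 * nm e c k γ δ := by
        rw [hα, hβ]
        unfold nm
        ring
      obtain ⟨s, hs⟩ : ∃ s : ℚ, s = 1 / (2 * nm e c k γ δ) := ⟨_, rfl⟩
      have hs0 : s ≠ 0 := by
        rw [hs]
        exact one_div_ne_zero (mul_ne_zero two_ne_zero hn0)
      have hN : nm e c k γ δ = 1 / (2 * s) := by
        rw [hs]
        field_simp
      have hks : k = s ^ 2 := by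
        rw [hN] at h9
        field_simp at h9
        linear_combination h9 / 4
      have hc2 : c + 2 = (-s / β) ^ 2 := by
        field_simp
        linear_combination h7 + hks
      refine hsq he (-s / β) s hc2 hks ⟨2 * s * (2 * γ - c / k * δ), ?_⟩
      have e1 : 2 * s * (2 * γ - c / k * δ) * (2 * s * (2 * γ - c / k * δ))
          = 4 * s ^ 2 * (2 * γ - c / k * δ) ^ 2 := by ring
      rw [e1, htr, hN, h6]
      have e2 : c = (-s / β) ^ 2 - 2 := by linarith
      rw [e2, hks]
      field_simp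
      ring
  · rw [he] at h3
    have h5 : α ^ 2 + (β / k) ^ 2 = 0 := by linear_combination h3
    have h6 : β / k = 0 := by nlinarith [sq_nonneg α, sq_nonneg (β / k)]
    have h7 : β = 0 := by
      rcases div_eq_zero_iff.1 h6 with h | h
      · exact h
      · exact absurd h hk.ne'
    rw [h7] at h4
    norm_num at h4

theorem core_odd (C' E' : ℤ) (hC' : c = C') (hE' : e = E') (r : ℕ) (hr : Odd r) (w : L) (hw : w ^ r = g) :
    (∃ a : ℤ, (dickson 1 E' r).eval a = C') ∧ ∃ t : ℚ, k = t ^ r := by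
  have hee : e * e = 1 := by rcases he with rfl | rfl <;> norm_num
  have her : e ^ r = e := by
    rcases he with h | h
    · rw [h, one_pow]
    · rw [h, hr.neg_one_pow]
  obtain ⟨α, β, hαβ⟩ := hrep w
  obtain ⟨γ, δ, h1, h2⟩ := pow_rep A g e c k hg w α β hαβ r
  rw [hw] at h1
  obtain ⟨h3, h4⟩ := hind γ (δ - 1) (by
    rw [map_sub, map_one]
    linear_combination -h1)
  have h5 : δ = 1 := by linarith
  rw [h3, h5] at h2
  set ν := nm e c k α β with hν
  have h6 : (e * ν) ^ r = 1 / k ^ 2 := by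
    rw [mul_pow, her, ← h2]
    unfold nm
    linear_combination (1 / k ^ 2) * hee
  obtain ⟨m, hm⟩ := hr
  obtain ⟨μ, hμ⟩ : ∃ μ : ℚ, μ = (e * ν) ^ (m + 1) * k := ⟨_, rfl⟩
  have h7 : μ ^ r = 1 / k := by
    have : μ ^ r = ((e * ν) ^ r) ^ (m + 1) * k ^ r := by rw [hμ]; ring
    rw [this, h6, hm, div_pow, one_pow, ← pow_mul]
    field_simp
    ring
  have hμ0 : μ ≠ 0 := by
    intro h
    rw [h, zero_pow (by omega)] at h7
    have : (0 : ℚ) < 1 / k := by positivity
    linarith
  have h8 : μ ^ 2 = e * ν := by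
    have hodd : Odd r := ⟨m, hm⟩
    apply hodd.strictMono_pow.injective
    show (μ ^ 2) ^ r = (e * ν) ^ r
    rw [← pow_mul, mul_comm, pow_mul, h7, h6]
    field_simp
  refine ⟨?_, 1 / μ, by rw [div_pow, one_pow, h7]; field_simp⟩
  -- `v`
  have hA : Function.Injective A := A.injective
  have hAμ : A μ ≠ 0 := by
    intro h
    exact hμ0 (hA (by rw [h, map_zero]))
  have hAk : A k ≠ 0 := by
    intro h
    exact hk.ne' (hA (by rw [h, map_zero]))
  have hAee : A e * A e = 1 := by rw [← map_mul, hee, map_one]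
  obtain ⟨g', hg'⟩ : ∃ g' : L, g' = -(A (c / k)) - g := ⟨_, rfl⟩
  have hgg : g * g' = A (e / k ^ 2) := by
    rw [hg']
    linear_combination -hg
  obtain ⟨w', hw'⟩ : ∃ w' : L, w' = A α + A β * g' := ⟨_, rfl⟩
  have hww : w * w' = A ν := by
    rw [hν, hw', hαβ]
    unfold nm
    rw [map_add, map_sub, map_mul, map_mul, map_mul A (e / k ^ 2), map_pow, map_pow]
    have e2 : g + g' = -(A (c / k)) := by rw [hg']; ring
    linear_combination (A β) ^ 2 * hgg + (A α * A β) * e2
  obtain ⟨v, hv⟩ : ∃ v : L, v = -(w / A μ) := ⟨_, rfl⟩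
  obtain ⟨v', hv'⟩ : ∃ v' : L, v' = -(w' / A μ) := ⟨_, rfl⟩
  have hvv : v * v' = A e := by
    rw [hv, hv']
    have h10 : A μ ^ 2 = A e * A ν := by rw [← map_pow, h8, map_mul]
    field_simp
    rw [hww, h10]
    linear_combination (-A ν) * hAee
  have hr0 : 0 < r := by omega
  have hodd : Odd r := ⟨m, hm⟩
  have hμr : A μ ^ r = 1 / A k := by rw [← map_pow, h7, map_div₀, map_one]
  have hvr : v ^ r = -(g * A k) := by
    rw [hv, hodd.neg_pow, div_pow, hw, hμr]
    field_simp
  have hprod : v ^ r * v' ^ r = A e := by rw [← mul_pow, hvv, ← map_pow, her]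
  have hv'r : v' ^ r = -(g' * A k) := by
    have h10 : v ^ r * (-(g' * A k)) = A e := by
      rw [hvr]
      have : A (e / k ^ 2) = A e / (A k) ^ 2 := by rw [map_div₀, map_pow]
      rw [this] at hgg
      have h11 : g * g' * A k ^ 2 = A e := by
        rw [hgg]
        field_simp
      linear_combination h11
    have hv0 : v ^ r ≠ 0 := by
      intro h
      rw [h, zero_mul] at hprod
      rw [← hprod] at hAee
      norm_num at hAee
    exact mul_left_cancel₀ hv0 (hprod.trans h10.symm)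
  have hsum : v ^ r + v' ^ r = A c := by
    rw [hvr, hv'r, hg', map_div₀]
    field_simp
    ring
  obtain ⟨a₀, ha₀⟩ : ∃ a₀ : ℚ, a₀ = -((2 * α - c / k * β) / μ) := ⟨_, rfl⟩
  have hva : v + v' = A a₀ := by
    have e3 : A a₀ = -((2 * A α - A (c / k) * A β) / A μ) := by
      rw [ha₀, map_neg, map_div₀ A (2 * α - c / k * β) μ, map_sub A (2 * α) (c / k * β),
        map_mul A 2 α, map_mul A (c / k) β, map_ofNat]
    rw [hv, hv', hw', hαβ, hg', e3]
    field_simp
    ring
  have hch := dick (A e) v v' hvv r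
  rw [hva, hsum] at hch
  have hch2 : (dickson 1 e r).eval a₀ = c := by
    apply hA
    rw [← hch, ← map_dickson A, eval_map, eval₂_at_apply]
  -- integrality
  have hint : ∀ u u' : L, u * u' = A e → u + u' = A c → IsIntegral ℤ u := by
    intro u u' h1 h2
    refine ⟨X ^ 2 - C C' * X + C E', ?_, ?_⟩
    · monicity!
    · rw [hC'] at h2
      rw [hE'] at h1
      have e1 : A ((C' : ℤ) : ℚ) = (algebraMap ℤ L) C' := by simp
      have e2 : A ((E' : ℤ) : ℚ) = (algebraMap ℤ L) E' := by simp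
      rw [e1] at h2
      rw [e2] at h1
      simp only [eval₂_add, eval₂_sub, eval₂_mul, eval₂_pow, eval₂_X, eval₂_C]
      linear_combination u * h2 - h1
  have hvi : IsIntegral ℤ v := IsIntegral.of_pow hr0 (hint _ _ hprod hsum)
  have hvi' : IsIntegral ℤ v' := IsIntegral.of_pow hr0 (hint _ _ (by rw [mul_comm]; exact hprod)
    (by rw [add_comm]; exact hsum))
  have hai : IsIntegral ℤ a₀ := by
    have h10 : IsIntegral ℤ (A.toIntAlgHom a₀) := by
      have : A.toIntAlgHom a₀ = v + v' := hva.symm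
      rw [this]
      exact hvi.add hvi'
    exact (isIntegral_algHom_iff A.toIntAlgHom hA).1 h10
  obtain ⟨a, ha⟩ := IsIntegrallyClosed.isIntegral_iff.1 hai
  refine ⟨a, ?_⟩
  have hE'' : e = algebraMap ℤ ℚ E' := hE'
  rw [← ha, hC', hE'', ← map_dickson (algebraMap ℤ ℚ), eval_map, eval₂_at_apply] at hch2
  have h12 : (((dickson 1 E' r).eval a : ℤ) : ℚ) = (C' : ℚ) := hch2
  exact_mod_cast h12

end

theorem gen_sq {K : Type} [Field K] {E : Type} [Field E] [Algebra K E] (x : E) (b c : K)
    (hx : minpoly K x = X ^ 2 + C b * X + C c) :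
    (AdjoinSimple.gen K x) ^ 2 = -(algebraMap K K⟮x⟯ b * AdjoinSimple.gen K x + algebraMap K K⟮x⟯ c) := by
  have := minpoly.aeval K (AdjoinSimple.gen K x)
  rw [minpoly_gen, hx] at this
  simp only [map_add, map_mul, map_pow, aeval_X, aeval_C] at this ⊢
  linear_combination this

theorem irr_quad (c ε : ℤ) (hε : ε = 1 ∨ ε = -1) (hdisc : ¬ IsSquare (c ^ 2 - 4 * ε)) (k : ℚ) (hk : 0 < k)
    (hodd : ∀ r : ℕ, r.Prime → r ≠ 2 → ∀ a : ℤ, (dickson 1 ε r).eval a = c → ∀ t : ℚ, k ≠ t ^ r)
    (hC : ε = 1 → ¬ IsSquare (k * (2 - c)) ∧ ¬ IsSquare (k * (-2 - c)))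
    (hsq : ε = 1 → ∀ a s : ℚ, (c : ℚ) + 2 = a ^ 2 → k = s ^ 2 → ¬ IsSquare (2 * s * (a + 2)))
    (q : ℕ) (hq : 0 < q) :
    Irreducible ((X ^ 2 + C ((c : ℚ) / k) * X + C ((ε : ℚ) / k ^ 2)).comp (X ^ q)) := by
  obtain ⟨f, hf⟩ : ∃ f : ℚ[X], f = X ^ 2 + C ((c : ℚ) / k) * X + C ((ε : ℚ) / k ^ 2) := ⟨_, rfl⟩
  rw [← hf]
  have hfd : f.natDegree = 2 := by
    rw [hf]
    compute_degree!
  have hfm : f.Monic := by
    rw [hf]
    monicity!
  have hfirr : Irreducible f := by
    rw [hfm.irreducible_iff_roots_eq_zero_of_degree_le_three hfd.ge (by omega),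
      Multiset.eq_zero_iff_forall_notMem]
    intro y hy
    rw [mem_roots hfm.ne_zero, IsRoot.def, hf] at hy
    simp only [eval_add, eval_mul, eval_pow, eval_X, eval_C] at hy
    apply hdisc
    rw [← Rat.isSquare_intCast_iff]
    refine ⟨2 * k * y + c, ?_⟩
    push_cast
    field_simp at hy
    linear_combination (-4) * hy
  refine irreducible_comp hfm (monic_X_pow q) hfirr ?_
  intro E _ _ x hx
  rw [Polynomial.map_pow, map_X]
  have hg := gen_sq x _ _ (hx.trans hf)
  have hrep := rep x f hfd hx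
  have hind := indep x f hfd hx
  have hε' : (ε : ℚ) = 1 ∨ (ε : ℚ) = -1 := by
    rcases hε with rfl | rfl
    · left; norm_num
    · right; norm_num
  apply capelli q hq
  · intro r hr _ w hw
    rcases eq_or_ne r 2 with rfl | hr2
    · refine core_two _ _ _ _ k hk hε' hrep hind hg ?_ w hw
      intro h
      exact hC (by exact_mod_cast h)
    · obtain ⟨⟨a, ha⟩, t, ht⟩ := core_odd _ _ _ _ k hk hε' hrep hind hg c ε rfl rfl r (hr.odd_of_ne_two hr2) w hw
      exact hodd r hr hr2 a ha t ht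
  · intro _ w hw
    refine core_four _ _ _ _ k hk hε' hrep hind hg ?_ w hw
    intro h
    exact hsq (by exact_mod_cast h)

end Pool.Agent.N449.SX
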